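import Pool.Agent.Q269.SX.StX

/-!
# Project SX: the exact law in a class, lower bound (job SX-LWL)
-/

set_option autoImplicit false
set_option linter.all false

open scoped Classical
open Finset Polynomial Filter Topology

namespace Pool.Agent.Q193.SX

open Pool.Agent.Q269.SX
open Pool.Agent.Q269.SL
open Pool.Agent.Q269.MF
open Pool.Agent.Q269.GR (Dn pr)
open Pool.Agent.Y164.SZ (L AT BT ok SYM0 SYM FDat Triv kLI AS nb KerP)
open Pool.Agent.Y164.HG (Geo Del Tau QQ EW cur F2 kc)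
open Pool.Agent.Y164.PS (Sf mem_Sf Fam)
open Pool.Agent.Q269.GJ (Ip)

/-! ### finite sets with almost full mass -/

theorem one_fin_mass (c : ZMod 2) {δ : ℝ} (hδ : 0 < δ) : ∃ S : Finset ℕ, 1 - δ ≤ ∑ e ∈ S, lawc c e := by
  obtain ⟨S, -, hS⟩ := probc_fin c Set.univ hδ
  simp only [Set.mem_univ, if_true, (hasSum_lawc _).tsum_eq] at hS
  exact ⟨S, hS⟩

theorem fin_mass {R : Type} [Fintype R] (c : R → ZMod 2) {δ : ℝ} (hδ : 0 < δ) :
    ∃ S : Finset (R → ℕ), 1 - δ ≤ ∑ e ∈ S, ∏ r, lawc (c r) (e r) := by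
  obtain ⟨η, hη⟩ : ∃ η : ℝ, η = min δ 1 / ((Fintype.card R : ℝ) + 1) := ⟨_, rfl⟩
  have hc0 : (0 : ℝ) ≤ (Fintype.card R : ℝ) := Nat.cast_nonneg _
  have hm : 0 < min δ 1 := lt_min hδ one_pos
  have hη0 : 0 < η := by rw [hη]; positivity
  have hη1 : η ≤ 1 := by
    rw [hη, div_le_one (by positivity)]
    have := min_le_right δ 1
    linarith
  have hηc : (Fintype.card R : ℝ) * η ≤ δ := by
    have h1 : (Fintype.card R : ℝ) * η ≤ ((Fintype.card R : ℝ) + 1) * η := by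
      apply mul_le_mul_of_nonneg_right _ hη0.le
      linarith
    have h2 : ((Fintype.card R : ℝ) + 1) * η = min δ 1 := by
      rw [hη]
      field_simp
    have := min_le_left δ 1
    linarith
  choose S hS using fun r => one_fin_mass (c r) hη0
  refine ⟨Fintype.piFinset S, ?_⟩
  have h1 : ∑ e ∈ Fintype.piFinset S, ∏ r, lawc (c r) (e r) = ∏ r, ∑ e ∈ S r, lawc (c r) e := by
    rw [prod_univ_sum]
  rw [h1]
  have h2 : ∏ _r : R, (1 - η) ≤ ∏ r, ∑ e ∈ S r, lawc (c r) e :=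
    prod_le_prod (fun r _ => by linarith) (fun r _ => hS r)
  rw [prod_const, card_univ] at h2
  have h3 := one_add_mul_le_pow (show (-2 : ℝ) ≤ -η by linarith) (Fintype.card R)
  have h4 : (1 + -η) = 1 - η := by ring
  rw [h4] at h3
  linarith

/-! ### an upper bound from lower bounds -/

theorem up_of_low {S : Type} [Fintype S] (f : S → ℝ) {T M δ : ℝ} (hM : (Fintype.card S : ℝ) = M)
    (hT : 0 ≤ T) (hδ : 0 ≤ δ) (hs : ∑ s, f s = T) (hl : ∀ s, (1 - δ) * T ≤ M * f s) (s0 : S) :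
    M * f s0 ≤ (1 + M * δ) * T := by
  have h1 : ∑ s ∈ univ.erase s0, (1 - δ) * T ≤ ∑ s ∈ univ.erase s0, M * f s :=
    sum_le_sum fun s _ => hl s
  have h2 : M * f s0 + ∑ s ∈ univ.erase s0, M * f s = M * T := by
    rw [add_sum_erase univ (fun s => M * f s) (mem_univ s0), ← mul_sum, hs]
  have hpos : 1 ≤ Fintype.card S := Fintype.card_pos_iff.2 ⟨s0⟩
  have h3 : ((univ.erase s0 : Finset S).card : ℝ) = M - 1 := by
    rw [card_erase_of_mem (mem_univ s0), card_univ, Nat.cast_sub hpos, hM]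
    push_cast
    rfl
  rw [sum_const, nsmul_eq_mul, h3] at h1
  have h6 : 0 ≤ δ * T := mul_nonneg hδ hT
  nlinarith

section two
variable {k : Type} [Field k] [Fintype k]
variable {R : Type} [Fintype R] {n : R → ℕ}
  {a : (r : R) → Fin (n r) → k[X]} {N : R → ℕ} (H : ∀ r, Geo (a r) (N r))

/-- the exponents of the orders of the kernels belong to `𝒜` -/
def GoodE (H : ∀ r, Geo (a r) (N r)) (𝒜 : Finset (R → ℕ)) (D : k[X]) : Prop :=
  ∃ e ∈ 𝒜, ∀ r, kD (H r) D = 2 ^ e r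

variable [∀ r, Fact (Odd (n r))]

theorem cla_r {σ : (Σ r, Tau (a r)) → ZMod 2} (hchar : ringChar k ≠ 2) {ι : Type} [Fintype ι] {T : ι → k[X]}
    (hcl : cla σ (gM (datT H 0)) (Q2 a) T) (r : R) (s : Tau (a r)) :
    σ ⟨r, s⟩ + ∑ i, Pool.Agent.Y164.HG.BT (QQ (a r)) T i s + (H r).comb.gg s = 0 := by
  have h3 := hcl ⟨r, s⟩
  have h6 : ∀ i, BT 2 (Q2 a) T i ⟨r, s⟩ = Pool.Agent.Y164.HG.BT (QQ (a r)) T i s :=
    fun i => L_eq hchar _ _
  simp only [h6] at h3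
  exact h3

theorem imp_e (hK : S_KDR) (hchar : ringChar k ≠ 2) (𝒜 : Finset (R → ℕ))
    (σ : (Σ r, Tau (a r)) → ZMod 2) : ImpA (Q2 a) σ (gM (datT H 0))
      (fun x => ∀ r, IsUnit (x + (N r : ZMod 2)))
      (PUx (datT H σ) (Q2 a) 𝒜) (GoodE H 𝒜) := by
  intro ι _ T hR hcl hU hP
  obtain ⟨e, he, hPe⟩ := hP
  refine ⟨e, he, fun r => ?_⟩
  have h1 : Nat.card (KerP (datT H σ r) (AT 2 T) (BT 2 (Qr (Q2 a) r) T)
    (fun i => ((T i).natDegree : ZMod 2))) = 2 ^ e r := hPe r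
  have h4 : (AT 2 T) = Pool.Agent.Y164.HG.AT T := by
    funext i j
    exact L_eq hchar _ _
  have h5 : BT 2 (Qr (Q2 a) r) T = Pool.Agent.Y164.HG.BT (QQ (a r)) T := by
    funext i s
    exact L_eq hchar _ _
  have h2 : Nat.card (KerP (datT H σ r) (AT 2 T) (BT 2 (Qr (Q2 a) r) T)
      (fun i => ((T i).natDegree : ZMod 2))) =
      kc ((H r).dat fun s => σ ⟨r, s⟩) (AT 2 T) (BT 2 (Qr (Q2 a) r) T)
      (fun i => ((T i).natDegree : ZMod 2)) := ker_kc _ _ _ _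
  rw [h2, h4, h5] at h1
  rw [← h1]
  exact (((hK k (n r) (a r) (N r) (H r)).1 ι T (Fam_res hR r)).2.2 (fun s => σ ⟨r, s⟩)
    (cla_r H hchar hcl r)).symm

/-- lower bounds in a class -/
theorem low_e (hK : S_KDR) (hi : IsSquare (-1 : k)) (hchar : ringChar k ≠ 2) (hq : 4 ≤ Fintype.card k)
    (hF : Fam (Q2 a)) (σ : (Σ r, Tau (a r)) → ZMod 2) (𝒜 : Finset (R → ℕ)) {ε : ℝ} (hε : 0 < ε) :
    ∀ᶠ m : ℕ in atTop, (∀ r, Odd (m + N r)) →
      (∑ e ∈ 𝒜, ∏ r, u2 bet (e r) (parx e σ r) - ε) *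
        (((Sf k m).filter (nb (Q2 a))).card : ℝ) ≤
      (2 : ℝ) ^ Fintype.card (Σ r, Tau (a r)) *
        (((Sf k m).filter (P2a (GoodE H 𝒜) σ (gM (datT H 0)) (Q2 a))).card : ℝ) := by
  have S' : SYM 2 k := sym hchar hi
  obtain ⟨Kk, hKo, hKK⟩ := cx_ex 𝒜 σ (half_pos hε)
  obtain ⟨l, u, hl, hu, hlu⟩ := two_coef hKo
  have hcell : ∀ δ : ℝ, 0 < δ →
      CellA (Q2 a) σ (gM (datT H 0)) (fun x => ∀ r, IsUnit (x + (N r : ZMod 2)))
        (PUx (datT H σ) (Q2 a) 𝒜) (∑ e ∈ 𝒜, cX Kk e (parx e σ) - δ) :=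
    fun δ hδ => cell_x H hl hu hlu σ 𝒜 hδ
  have h := class_cnt_b S' hF hchar hq (imp_e H hK hchar 𝒜 σ) _ hcell (ε / 2) (half_pos hε)
  filter_upwards [h] with m hm ho
  have h3 : ∀ r, IsUnit ((m : ZMod 2) + (N r : ZMod 2)) := by
    intro r
    have h4 : ((m + N r : ℕ) : ZMod 2) = 1 := (ZMod.natCast_eq_one_iff_odd).2 (ho r)
    have h5 : (m : ZMod 2) + (N r : ZMod 2) = 1 := by
      rw [← h4]
      push_cast
      rfl
    rw [h5]
    exact isUnit_one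
  have h4 := hm h3
  push_cast at h4
  refine le_trans ?_ h4
  apply mul_le_mul_of_nonneg_right _ (Nat.cast_nonneg _)
  linarith

/-- the class -/
noncomputable def Cx (H : ∀ r, Geo (a r) (N r)) (σ : (Σ r, Tau (a r)) → ZMod 2) (m : ℕ) : Finset k[X] :=
  (Sf k m).filter fun D => nb (Q2 a) D ∧ gcla σ (gM (datT H 0)) (Q2 a) D

theorem Cx_disj (m : ℕ) {σ σ' : (Σ r, Tau (a r)) → ZMod 2} (h : σ ≠ σ') :
    Disjoint (Cx H σ m) (Cx H σ' m) := by
  rw [disjoint_left]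
  intro D h1 h2
  apply h
  funext s
  have key : ∀ x x' y z : ZMod 2, x + y + z = 0 → x' + y + z = 0 → x = x' := by decide
  exact key _ _ _ _ ((mem_filter.1 h1).2.2 s) ((mem_filter.1 h2).2.2 s)

theorem Cx_sum (m : ℕ) : ∑ σ : (Σ r, Tau (a r)) → ZMod 2, (Cx H σ m).card =
    ((Sf k m).filter (nb (Q2 a))).card := by
  rw [← card_biUnion fun σ _ σ' _ h => Cx_disj H m h]
  congr 1
  ext D
  simp only [mem_biUnion, mem_univ, true_and, Cx, mem_filter]
  constructor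
  · rintro ⟨σ, h1, h2, h3⟩
    exact ⟨h1, h2⟩
  · rintro ⟨h1, h2⟩
    refine ⟨fun s => L 2 D (Q2 a s) + gM (datT H 0) s, h1, h2, fun s => ?_⟩
    have key : ∀ x y : ZMod 2, x + y + x + y = 0 := by decide
    exact key _ _

/-- the sizes of the classes -/
theorem size_e (hK : S_KDR) (hi : IsSquare (-1 : k)) (hchar : ringChar k ≠ 2) (hq : 4 ≤ Fintype.card k)
    (hF : Fam (Q2 a)) {δ : ℝ} (hδ : 0 < δ) :
    ∀ᶠ m : ℕ in atTop, (∀ r, Odd (m + N r)) → ∀ σ : (Σ r, Tau (a r)) → ZMod 2,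
      (1 - δ) * (((Sf k m).filter (nb (Q2 a))).card : ℝ) ≤
      (2 : ℝ) ^ Fintype.card (Σ r, Tau (a r)) * ((Cx H σ m).card : ℝ) ∧
      (2 : ℝ) ^ Fintype.card (Σ r, Tau (a r)) * ((Cx H σ m).card : ℝ) ≤
      (1 + δ) * (((Sf k m).filter (nb (Q2 a))).card : ℝ) := by
  obtain ⟨M, hM⟩ : ∃ M : ℝ, M = (2 : ℝ) ^ Fintype.card (Σ r, Tau (a r)) := ⟨_, rfl⟩
  have hM1 : 1 ≤ M := by rw [hM]; exact one_le_pow₀ (by norm_num)
  have hδM : 0 < δ / M := by positivity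
  have hlow : ∀ σ : (Σ r, Tau (a r)) → ZMod 2, ∀ᶠ m : ℕ in atTop, (∀ r, Odd (m + N r)) →
      (1 - δ / M) * (((Sf k m).filter (nb (Q2 a))).card : ℝ) ≤ M * ((Cx H σ m).card : ℝ) := by
    intro σ
    obtain ⟨S, hS⟩ := fin_mass (fun r => (Fintype.card (Tau (a r)) : ZMod 2) + ∑ s, σ ⟨r, s⟩)
      (half_pos hδM)
    filter_upwards [low_e H hK hi hchar hq hF σ S (half_pos hδM)] with m hm ho
    have h1 := hm ho
    rw [← hM] at h1
    have h2 : (((Sf k m).filter (P2a (GoodE H S) σ (gM (datT H 0)) (Q2 a))).card : ℝ) ≤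
        ((Cx H σ m).card : ℝ) := by
      have : (Sf k m).filter (P2a (GoodE H S) σ (gM (datT H 0)) (Q2 a)) ⊆ Cx H σ m := by
        intro D hD
        obtain ⟨g1, g2, g3⟩ := mem_filter.1 hD
        exact mem_filter.2 ⟨g1, g2⟩
      exact_mod_cast card_le_card this
    have h3 : ∑ e ∈ S, ∏ r, u2 bet (e r) (parx e σ r) =
        ∑ e ∈ S, ∏ r, lawc ((Fintype.card (Tau (a r)) : ZMod 2) + ∑ s, σ ⟨r, s⟩) (e r) := rfl
    rw [h3] at h1
    have h4 : (1 - δ / M) * (((Sf k m).filter (nb (Q2 a))).card : ℝ) ≤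
        (∑ e ∈ S, ∏ r, lawc ((Fintype.card (Tau (a r)) : ZMod 2) + ∑ s, σ ⟨r, s⟩) (e r) - δ / M / 2) *
        (((Sf k m).filter (nb (Q2 a))).card : ℝ) := by
      apply mul_le_mul_of_nonneg_right _ (Nat.cast_nonneg _)
      linarith
    exact h4.trans (h1.trans (mul_le_mul_of_nonneg_left h2 (by linarith)))
  have hall := (Filter.eventually_all).2 hlow
  filter_upwards [hall] with m hm ho σ
  rw [← hM]
  have hT0 : (0 : ℝ) ≤ (((Sf k m).filter (nb (Q2 a))).card : ℝ) := Nat.cast_nonneg _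
  constructor
  · refine le_trans ?_ (hm σ ho)
    apply mul_le_mul_of_nonneg_right _ hT0
    have : δ / M ≤ δ := div_le_self hδ.le hM1
    linarith
  · have h := up_of_low (S := (Σ r, Tau (a r)) → ZMod 2) (fun σ => ((Cx H σ m).card : ℝ))
      (T := (((Sf k m).filter (nb (Q2 a))).card : ℝ)) (M := M) (δ := δ / M)
      (by rw [Fintype.card_fun, ZMod.card, hM]; push_cast; rfl) hT0 hδM.le
      (by rw [← Cx_sum H m]; push_cast; rfl) (fun σ => hm σ ho) σ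
    refine h.trans (le_of_eq ?_)
    have : M * (δ / M) = δ := mul_div_cancel₀ _ (by linarith)
    rw [this]

include H in
/-- the set of the twists -/
theorem X_eq (m : ℕ) : (Sf k m).filter (nb (Q2 a)) = Dn (∏ r, Del (a r)) m := by
  ext D
  rw [mem_filter, mem_Sf, Dn, mem_filter, Pool.Agent.H341R2.Sharp.mem_Mon]
  constructor
  · rintro ⟨⟨a1, a2, a3⟩, a4⟩
    refine ⟨⟨a1, a2⟩, a3, IsCoprime.prod_right fun r _ => IsCoprime.prod_right fun x hx => ?_⟩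
    exact (nb2_iff H a1).1 a4 r _ _ (mem_filter.1 hx).2.ne
  · rintro ⟨⟨a1, a2⟩, a3, a4⟩
    refine ⟨⟨a1, a2, a3⟩, (nb2_iff H a1).2 fun r i j hij => ?_⟩
    have h1 : IsCoprime D (Del (a r)) := (IsCoprime.prod_right_iff.1 a4) r (mem_univ r)
    rcases lt_or_gt_of_ne hij with h | h
    · exact (IsCoprime.prod_right_iff.1 h1) (i, j) (mem_filter.2 ⟨mem_univ _, h⟩)
    · have h2 := (IsCoprime.prod_right_iff.1 h1) (j, i) (mem_filter.2 ⟨mem_univ _, h⟩)
      have h3 : a r i - a r j = -(a r j - a r i) := by ring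
      rw [h3]
      exact h2.neg_right

theorem Dn_r {m : ℕ} {D : k[X]} (hD : D ∈ Dn (∏ r, Del (a r)) m) (r : R) : D ∈ Dn (Del (a r)) m := by
  rw [Dn, mem_filter] at hD ⊢
  exact ⟨hD.1, hD.2.1, (IsCoprime.prod_right_iff.1 hD.2.2) r (mem_univ r)⟩

/-- the class condition -/
theorem gcla_sg (hK : S_KDR) (hi : IsSquare (-1 : k)) (hchar : ringChar k ≠ 2)
    (σ : ∀ r, Tau (a r) → ZMod 2) {m : ℕ} {D : k[X]} (hD : D ∈ Dn (∏ r, Del (a r)) m) :
    gcla (fun x : (Σ r, Tau (a r)) => σ x.1 x.2) (gM (datT H 0)) (Q2 a) D ↔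
      ∀ r s, sgD (H r) D s = σ r s := by
  have S' : SYM 2 k := sym hchar hi
  have key : ∀ x y z : ZMod 2, x + y + z = 0 ↔ y + z = x := by decide
  have hL : ∀ r (s : Tau (a r)), L 2 D (QQ (a r) s) = ∑ P : Ip D, Pool.Agent.Y164.PS.L P.1 (QQ (a r) s) := by
    intro r s
    obtain ⟨hf, hp, -⟩ := (hK k (n r) (a r) (N r) (H r)).2 m D (Dn_r hD r)
    have h1 := S'.toSYM0.L_prod_left (Ip D) univ (fun P => P.1) (QQ (a r) s) (hf.irr (Sum.inr s)).ne_zero
      (fun P _ => (hf.irr (Sum.inl P)).ne_zero) (fun P _ => by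
        have hirr : Irreducible P.1 := hf.irr (Sum.inl P)
        rw [hirr.coprime_iff_not_dvd]
        intro hd
        have h2 := eq_of_monic_of_associated (hf.mon (Sum.inl P)) (hf.mon (Sum.inr s))
          ((hf.irr (Sum.inl P)).associated_of_dvd (hf.irr (Sum.inr s)) hd)
        have h3 := hf.inj h2
        cases h3)
    rw [hp] at h1
    rw [h1]
    exact sum_congr rfl fun P _ => L_eq hchar _ _
  constructor
  · intro h r s
    have h1 : L 2 D (QQ (a r) s) + (H r).comb.gg s = σ r s := (key _ _ _).1 (h ⟨r, s⟩)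
    rw [sgD, ← h1, ← hL r s]
  · intro h x
    refine (key _ _ _).2 ?_
    show L 2 D (QQ (a x.1) x.2) + (H x.1).comb.gg x.2 = σ x.1 x.2
    rw [← h x.1 x.2, sgD, ← hL x.1 x.2]

theorem Cx_eq (hK : S_KDR) (hi : IsSquare (-1 : k)) (hchar : ringChar k ≠ 2)
    (σ : ∀ r, Tau (a r) → ZMod 2) (m : ℕ) : Cx H (fun x => σ x.1 x.2) m =
      (Dn (∏ r, Del (a r)) m).filter fun D => ∀ r s, sgD (H r) D s = σ r s := by
  ext D
  rw [← X_eq H m, Cx, mem_filter, mem_filter, mem_filter]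
  constructor
  · rintro ⟨h1, h2, h3⟩
    have hD : D ∈ Dn (∏ r, Del (a r)) m := by rw [← X_eq H m]; exact mem_filter.2 ⟨h1, h2⟩
    exact ⟨⟨h1, h2⟩, (gcla_sg H hK hi hchar σ hD).1 h3⟩
  · rintro ⟨⟨h1, h2⟩, h3⟩
    have hD : D ∈ Dn (∏ r, Del (a r)) m := by rw [← X_eq H m]; exact mem_filter.2 ⟨h1, h2⟩
    exact ⟨h1, h2, (gcla_sg H hK hi hchar σ hD).2 h3⟩

theorem Gx_eq (hK : S_KDR) (hi : IsSquare (-1 : k)) (hchar : ringChar k ≠ 2)
    (σ : ∀ r, Tau (a r) → ZMod 2) (𝒜 : Finset (R → ℕ)) (m : ℕ) :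
    (Sf k m).filter (P2a (GoodE H 𝒜) (fun x => σ x.1 x.2) (gM (datT H 0)) (Q2 a)) =
      (Dn (∏ r, Del (a r)) m).filter fun D => (∀ r s, sgD (H r) D s = σ r s) ∧
        ∃ e ∈ 𝒜, ∀ r, kD (H r) D = 2 ^ e r := by
  ext D
  rw [← X_eq H m, mem_filter, mem_filter, mem_filter]
  constructor
  · rintro ⟨h1, ⟨h2, h3⟩, h4⟩
    have hD : D ∈ Dn (∏ r, Del (a r)) m := by rw [← X_eq H m]; exact mem_filter.2 ⟨h1, h2⟩
    exact ⟨⟨h1, h2⟩, (gcla_sg H hK hi hchar σ hD).1 h3, h4⟩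
  · rintro ⟨⟨h1, h2⟩, h3, h4⟩
    have hD : D ∈ Dn (∏ r, Del (a r)) m := by rw [← X_eq H m]; exact mem_filter.2 ⟨h1, h2⟩
    exact ⟨h1, ⟨h2, (gcla_sg H hK hi hchar σ hD).2 h3⟩, h4⟩

end two

theorem T_le {k : Type} [Field k] [Fintype k] (Δ : k[X]) (m : ℕ) :
    ((Dn Δ m).card : ℝ) ≤ (Fintype.card k : ℝ) ^ m := by
  have h1 : (Dn Δ m).card ≤ Fintype.card k ^ m := by
    have h2 : (univ : Finset (Fin m → k)).card = Fintype.card k ^ m := by
      rw [card_univ, Fintype.card_fun, Fintype.card_fin]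
    rw [← h2]
    apply card_le_card_of_injOn (fun (D : k[X]) (i : Fin m) => D.coeff (i : ℕ)) (fun _ _ => mem_univ _)
    intro D hD D' hD' h
    have g1 := Pool.Agent.H341R2.Sharp.mem_Mon.1 (mem_filter.1 (mem_coe.1 hD)).1
    have g2 := Pool.Agent.H341R2.Sharp.mem_Mon.1 (mem_filter.1 (mem_coe.1 hD')).1
    ext i
    rcases lt_trichotomy i m with hi | hi | hi
    · exact congrFun h ⟨i, hi⟩
    · subst hi
      have e1 := g1.1
      have e2 := g2.1
      rw [Monic, leadingCoeff, g1.2] at e1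
      rw [Monic, leadingCoeff, g2.2] at e2
      rw [e1, e2]
    · rw [coeff_eq_zero_of_natDegree_lt (by rw [g1.2]; exact hi),
        coeff_eq_zero_of_natDegree_lt (by rw [g2.2]; exact hi)]
  exact_mod_cast h1

/-- **JOB SX-LWL** -/
theorem t_LWL (hK : S_KDR) : S_LWL := by
  intro k _ _ R _ n a N H hcop 𝒜 ε hε
  rcases isEmpty_or_nonempty R with hR | ⟨⟨r0⟩⟩
  · refine Eventually.of_forall fun m _ σ => ?_
    have hq : (0 : ℝ) ≤ ε * (Fintype.card k : ℝ) ^ m := by positivity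
    rcases 𝒜.eq_empty_or_nonempty with h | ⟨e0, he0⟩
    · subst h
      rw [sum_empty, zero_mul]
      have : (0 : ℝ) ≤ (((Dn (∏ r, Del (a r)) m).filter fun D => (∀ r s, sgD (H r) D s = σ r s) ∧
        ∃ e ∈ (∅ : Finset (R → ℕ)), ∀ r, kD (H r) D = 2 ^ e r).card : ℝ) := Nat.cast_nonneg _
      linarith
    · have h𝒜 : 𝒜 = {e0} := by
        ext e
        rw [mem_singleton]
        constructor
        · intro _
          exact Subsingleton.elim _ _
        · rintro rfl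
          exact he0
      have e1 : (Dn (∏ r, Del (a r)) m).filter (fun D => (∀ r s, sgD (H r) D s = σ r s) ∧
        ∃ e ∈ 𝒜, ∀ r, kD (H r) D = 2 ^ e r) =
        (Dn (∏ r, Del (a r)) m).filter (fun D => ∀ r s, sgD (H r) D s = σ r s) := by
        apply filter_congr
        intro D _
        constructor
        · rintro ⟨h1, -⟩
          exact h1
        · intro h1
          exact ⟨h1, e0, he0, fun r => (hR.false r).elim⟩
      rw [e1, h𝒜, sum_singleton, univ_eq_empty, prod_empty, one_mul]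
      linarith
  · haveI : ∀ r, Fact (Odd (n r)) := fun r => ⟨(H r).hn⟩
    have hi := (H r0).hm
    have hchar := (H r0).hk
    have h2 : (2 : k) ≠ 0 := Ring.two_ne_zero hchar
    have hq := Pool.Agent.Y164.HG.four_le h2 hi
    have hF : Fam (Q2 a) := Q2_fam H hcop
    obtain ⟨M, hM⟩ : ∃ M : ℝ, M = (2 : ℝ) ^ Fintype.card (Σ r, Tau (a r)) := ⟨_, rfl⟩
    have hM1 : 1 ≤ M := by rw [hM]; exact one_le_pow₀ (by norm_num)
    have key : ∀ σ : ∀ r, Tau (a r) → ZMod 2, ∀ᶠ m : ℕ in atTop, (∀ r, Odd (m + N r)) →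
        (∑ e ∈ 𝒜, ∏ r, lawc ((Fintype.card (Tau (a r)) : ZMod 2) + ∑ s, σ r s) (e r)) *
          (((Dn (∏ r, Del (a r)) m).filter fun D => ∀ r s, sgD (H r) D s = σ r s).card : ℝ) -
          ε * (Fintype.card k : ℝ) ^ m ≤
        (((Dn (∏ r, Del (a r)) m).filter fun D => (∀ r s, sgD (H r) D s = σ r s) ∧
          ∃ e ∈ 𝒜, ∀ r, kD (H r) D = 2 ^ e r).card : ℝ) := by
      intro σ
      obtain ⟨p, hp⟩ : ∃ p : ℝ, p =
        ∑ e ∈ 𝒜, ∏ r, lawc ((Fintype.card (Tau (a r)) : ZMod 2) + ∑ s, σ r s) (e r) := ⟨_, rfl⟩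
      have hp0 : 0 ≤ p := by
        rw [hp]
        exact sum_nonneg fun e _ => prod_nonneg fun r _ => lawc_nonneg _ _
      obtain ⟨δ, hδ⟩ : ∃ δ : ℝ, δ = ε / 2 / (p + 1) := ⟨_, rfl⟩
      have hδ0 : 0 < δ := by rw [hδ]; positivity
      have hpδ : p * δ ≤ ε / 2 := by
        have h3 : (p + 1) * δ = ε / 2 := by
          rw [hδ]
          field_simp
        nlinarith
      filter_upwards [low_e H hK hi hchar hq hF (fun x => σ x.1 x.2) 𝒜 (half_pos hε),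
        size_e H hK hi hchar hq hF hδ0] with m h3 h4 ho
      have h5 := h3 ho
      have h6 := (h4 ho fun x => σ x.1 x.2).2
      have e3 : ∑ e ∈ 𝒜, ∏ r, u2 bet (e r) (parx e (fun x : (Σ r, Tau (a r)) => σ x.1 x.2) r) = p := hp.symm
      rw [e3, Gx_eq H hK hi hchar, X_eq H m, ← hM] at h5
      rw [Cx_eq H hK hi hchar, X_eq H m, ← hM] at h6
      rw [← hp]
      have h7 := T_le (∏ r, Del (a r)) m
      obtain ⟨T, hT⟩ : ∃ T : ℝ, T = ((Dn (∏ r, Del (a r)) m).card : ℝ) := ⟨_, rfl⟩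
      have hT0 : 0 ≤ T := by rw [hT]; exact Nat.cast_nonneg _
      rw [← hT] at h5 h6 h7
      obtain ⟨Cc, hC⟩ : ∃ Cc : ℝ, Cc =
        (((Dn (∏ r, Del (a r)) m).filter fun D => ∀ r s, sgD (H r) D s = σ r s).card : ℝ) := ⟨_, rfl⟩
      obtain ⟨G, hG⟩ : ∃ G : ℝ, G = (((Dn (∏ r, Del (a r)) m).filter fun D =>
        (∀ r s, sgD (H r) D s = σ r s) ∧ ∃ e ∈ 𝒜, ∀ r, kD (H r) D = 2 ^ e r).card : ℝ) := ⟨_, rfl⟩
      rw [← hC] at h6 ⊢
      rw [← hG] at h5 ⊢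
      obtain ⟨q, hqq⟩ : ∃ q : ℝ, q = (Fintype.card k : ℝ) ^ m := ⟨_, rfl⟩
      rw [← hqq] at h7 ⊢
      have h8 : p * (M * Cc) ≤ p * ((1 + δ) * T) := mul_le_mul_of_nonneg_left h6 hp0
      have h9 : p * δ * T ≤ ε / 2 * T := mul_le_mul_of_nonneg_right hpδ hT0
      have h10 : ε * T ≤ ε * q := mul_le_mul_of_nonneg_left h7 hε.le
      have hq0 : 0 ≤ ε * q := mul_nonneg hε.le (hT0.trans h7)
      have h11 : ε * q ≤ M * (ε * q) := by nlinarith
      have h12 : M * (p * Cc - ε * q) ≤ M * G := by nlinarith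
      exact le_of_mul_le_mul_left h12 (by linarith)
    filter_upwards [(Filter.eventually_all).2 key] with m hm ho σ using hm σ ho

/-- **JOB SX-LWM** -/
theorem t_LWM (h : S_LWL) : S_LWM := by
  intro k _ _ R _ n a N H hcop e ε hε
  have key : ∀ σ : ∀ r, Tau (a r) → ZMod 2, ∀ᶠ m : ℕ in atTop, (∀ r, Odd (m + N r)) →
      |(((Dn (∏ r, Del (a r)) m).filter fun D => (∀ r s, sgD (H r) D s = σ r s) ∧
          ∀ r, kD (H r) D = 2 ^ e r).card : ℝ) -
        (∏ r, lawc ((Fintype.card (Tau (a r)) : ZMod 2) + ∑ s, σ r s) (e r)) *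
          (((Dn (∏ r, Del (a r)) m).filter fun D => ∀ r s, sgD (H r) D s = σ r s).card : ℝ)| ≤
      ε * (Fintype.card k : ℝ) ^ m := by
    intro σ
    obtain ⟨S, hS⟩ := fin_mass (fun r => (Fintype.card (Tau (a r)) : ZMod 2) + ∑ s, σ r s) (half_pos hε)
    filter_upwards [h k R n a N H hcop {e} ε hε, h k R n a N H hcop (S.erase e) (ε / 2) (half_pos hε)]
      with m h1 h2 ho
    have h3 := h1 ho σ
    have h4 := h2 ho σ
    rw [sum_singleton] at h3
    have e1 : (Dn (∏ r, Del (a r)) m).filter (fun D => (∀ r s, sgD (H r) D s = σ r s) ∧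
        ∃ e' ∈ ({e} : Finset (R → ℕ)), ∀ r, kD (H r) D = 2 ^ e' r) =
        (Dn (∏ r, Del (a r)) m).filter (fun D => (∀ r s, sgD (H r) D s = σ r s) ∧
          ∀ r, kD (H r) D = 2 ^ e r) := by
      apply filter_congr
      intro D _
      simp only [mem_singleton, exists_eq_left]
    rw [e1] at h3
    obtain ⟨p, hp⟩ : ∃ p : ℝ, p =
      ∏ r, lawc ((Fintype.card (Tau (a r)) : ZMod 2) + ∑ s, σ r s) (e r) := ⟨_, rfl⟩
    have hp0 : 0 ≤ p := by
      rw [hp]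
      exact prod_nonneg fun r _ => lawc_nonneg _ _
    have h5 : 1 - ε / 2 - p ≤
        ∑ e' ∈ S.erase e, ∏ r, lawc ((Fintype.card (Tau (a r)) : ZMod 2) + ∑ s, σ r s) (e' r) := by
      by_cases he : e ∈ S
      · have := add_sum_erase S (fun e' : R → ℕ =>
          ∏ r, lawc ((Fintype.card (Tau (a r)) : ZMod 2) + ∑ s, σ r s) (e' r)) he
        rw [← hp] at this
        linarith
      · rw [erase_eq_of_notMem he]
        linarith
    rw [← hp] at h3 ⊢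
    obtain ⟨Cc, hC⟩ : ∃ Cc : ℝ, Cc =
      (((Dn (∏ r, Del (a r)) m).filter fun D => ∀ r s, sgD (H r) D s = σ r s).card : ℝ) := ⟨_, rfl⟩
    rw [← hC] at h3 h4 ⊢
    have hC0 : 0 ≤ Cc := by rw [hC]; exact Nat.cast_nonneg _
    have hCq : Cc ≤ (Fintype.card k : ℝ) ^ m := by
      rw [hC]
      have hsub : (((Dn (∏ r, Del (a r)) m).filter fun D => ∀ r s, sgD (H r) D s = σ r s).card : ℝ) ≤
        ((Dn (∏ r, Del (a r)) m).card : ℝ) := by
        exact_mod_cast card_le_card (filter_subset _ _)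
      exact hsub.trans (T_le _ m)
    have h6 : (((Dn (∏ r, Del (a r)) m).filter fun D => (∀ r s, sgD (H r) D s = σ r s) ∧
          ∀ r, kD (H r) D = 2 ^ e r).card : ℝ) +
        (((Dn (∏ r, Del (a r)) m).filter fun D => (∀ r s, sgD (H r) D s = σ r s) ∧
          ∃ e' ∈ S.erase e, ∀ r, kD (H r) D = 2 ^ e' r).card : ℝ) ≤ Cc := by
      rw [hC]
      have hd : Disjoint ((Dn (∏ r, Del (a r)) m).filter fun D => (∀ r s, sgD (H r) D s = σ r s) ∧
          ∀ r, kD (H r) D = 2 ^ e r) ((Dn (∏ r, Del (a r)) m).filter fun D =>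
          (∀ r s, sgD (H r) D s = σ r s) ∧ ∃ e' ∈ S.erase e, ∀ r, kD (H r) D = 2 ^ e' r) := by
        rw [disjoint_left]
        intro D g1 g2
        obtain ⟨-, -, g3⟩ := mem_filter.1 g1
        obtain ⟨-, -, e', he', g4⟩ := mem_filter.1 g2
        apply (mem_erase.1 he').1
        funext r
        exact Nat.pow_right_injective le_rfl ((g4 r).symm.trans (g3 r))
      have h7 : ((Dn (∏ r, Del (a r)) m).filter fun D => (∀ r s, sgD (H r) D s = σ r s) ∧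
          ∀ r, kD (H r) D = 2 ^ e r).card + ((Dn (∏ r, Del (a r)) m).filter fun D =>
          (∀ r s, sgD (H r) D s = σ r s) ∧ ∃ e' ∈ S.erase e, ∀ r, kD (H r) D = 2 ^ e' r).card ≤
          ((Dn (∏ r, Del (a r)) m).filter fun D => ∀ r s, sgD (H r) D s = σ r s).card := by
        rw [← card_union_of_disjoint hd]
        apply card_le_card
        intro D hD
        rcases mem_union.1 hD with hD | hD
        · obtain ⟨g1, g2, -⟩ := mem_filter.1 hD
          exact mem_filter.2 ⟨g1, g2⟩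
        · obtain ⟨g1, g2, -⟩ := mem_filter.1 hD
          exact mem_filter.2 ⟨g1, g2⟩
      exact_mod_cast h7
    obtain ⟨q, hqq⟩ : ∃ q : ℝ, q = (Fintype.card k : ℝ) ^ m := ⟨_, rfl⟩
    rw [← hqq] at h3 h4 hCq ⊢
    have h8 : (1 - ε / 2 - p) * Cc ≤
      (∑ e' ∈ S.erase e, ∏ r, lawc ((Fintype.card (Tau (a r)) : ZMod 2) + ∑ s, σ r s) (e' r)) * Cc :=
      mul_le_mul_of_nonneg_right h5 hC0
    have h9 : ε / 2 * Cc ≤ ε / 2 * q := mul_le_mul_of_nonneg_left hCq (by linarith)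
    rw [abs_le]
    constructor
    · linarith
    · nlinarith
  filter_upwards [(Filter.eventually_all).2 key] with m hm ho σ using hm σ ho

end Pool.Agent.Q193.SX
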